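import Pool.Agent.Helper79.ZC.Stmts

set_option autoImplicit false

namespace Pool.Agent.Helper79.ZC

open scoped Classical
open Filter Topology MeasureTheory

theorem gf_le {m : ℕ} (l : m.Partition) {i : ℕ} (hi : i ∈ l.parts) : i ≤ m := by
  have h := Multiset.single_le_sum (s := l.parts) (fun _ _ => Nat.zero_le _) i hi
  rw [l.parts_sum] at h
  exact h

theorem gf_all (M m : ℕ) (h : m ≤ M) : am M m = pn m := by
  unfold am pn
  rw [Finset.filter_true_of_mem (fun l _ i hi => (gf_le l hi).trans h)]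
  rfl

/-- add a part -/
def gf_add {m : ℕ} (k : ℕ) (hk : 0 < k) (l : m.Partition) : (m + k).Partition where
  parts := k ::ₘ l.parts
  parts_pos := by
    intro i hi
    rcases Multiset.mem_cons.1 hi with h | h
    · exact h ▸ hk
    · exact l.parts_pos h
  parts_sum := by
    rw [Multiset.sum_cons, l.parts_sum, add_comm]

theorem gf_add_inj {m : ℕ} (k : ℕ) (hk : 0 < k) : Function.Injective (gf_add (m := m) k hk) := by
  intro l l' h
  have h1 : k ::ₘ l.parts = k ::ₘ l'.parts := congrArg Nat.Partition.parts h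
  ext1
  exact (Multiset.cons_inj_right k).1 h1

theorem gf_mono (m n : ℕ) (h : m ≤ n) : pn m ≤ pn n := by
  induction n, h using Nat.le_induction with
  | base => exact le_rfl
  | succ n _ ih => exact ih.trans (Fintype.card_le_of_injective _ (gf_add_inj (m := n) 1 one_pos))

theorem gf_rec (M m : ℕ) : am (M + 1) (m + (M + 1)) = am M (m + (M + 1)) + am (M + 1) m := by
  unfold am
  have h1 : (Finset.univ.filter (fun l : (m + (M + 1)).Partition => ∀ i ∈ l.parts, i ≤ M + 1))
      = (Finset.univ.filter (fun l : (m + (M + 1)).Partition => ∀ i ∈ l.parts, i ≤ M)) ∪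
        (Finset.univ.filter (fun l : m.Partition => ∀ i ∈ l.parts, i ≤ M + 1)).image
          (gf_add (M + 1) (Nat.succ_pos M)) := by
    ext l
    simp only [Finset.mem_filter, Finset.mem_univ, true_and, Finset.mem_union, Finset.mem_image]
    constructor
    · intro h
      by_cases hM : M + 1 ∈ l.parts
      · right
        refine ⟨⟨l.parts.erase (M + 1), ?_, ?_⟩, ?_, ?_⟩
        · intro i hi
          exact l.parts_pos (Multiset.mem_of_mem_erase hi)
        · have h2 := l.parts_sum
          rw [← Multiset.cons_erase hM, Multiset.sum_cons] at h2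
          omega
        · intro i hi
          exact h i (Multiset.mem_of_mem_erase hi)
        · ext1
          exact Multiset.cons_erase hM
      · left
        intro i hi
        have h3 := h i hi
        have h4 : i ≠ M + 1 := fun h5 => hM (h5 ▸ hi)
        omega
    · rintro (h | ⟨l', h, rfl⟩)
      · intro i hi
        exact (h i hi).trans (Nat.le_succ M)
      · intro i hi
        rcases Multiset.mem_cons.1 hi with h5 | h5
        · exact h5.le
        · exact h i h5
  rw [h1, Finset.card_union_of_disjoint, Finset.card_image_of_injective _ (gf_add_inj _ _)]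
  rw [Finset.disjoint_left]
  intro l hl hl'
  simp only [Finset.mem_filter, Finset.mem_univ, true_and] at hl
  obtain ⟨l', -, rfl⟩ := Finset.mem_image.1 hl'
  have := hl (M + 1) (Multiset.mem_cons_self _ _)
  omega

theorem gf_small (M m : ℕ) (h : m < M + 1) : am (M + 1) m = am M m := by
  rw [gf_all (M + 1) m (by omega), gf_all M m (by omega)]

theorem gf_am00 : am 0 0 = 1 := by
  rw [gf_all 0 0 le_rfl]
  unfold pn
  exact Fintype.card_unique

theorem gf_am0 (m : ℕ) (h : m ≠ 0) : am 0 m = 0 := by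
  unfold am
  rw [Finset.card_eq_zero, Finset.filter_eq_empty_iff]
  intro l _ hl
  apply h
  rw [← l.parts_sum]
  refine Multiset.sum_eq_zero (fun i hi => ?_)
  have := hl i hi
  omega

theorem gf_summable (M : ℕ) (r : ℝ) (hr0 : 0 ≤ r) (hr : r < 1) :
    Summable (fun m : ℕ => (am M m : ℝ) * r ^ m) := by
  induction M with
  | zero =>
    refine summable_of_ne_finset_zero (s := {0}) (fun m hm => ?_)
    rw [gf_am0 m (by simpa using hm)]
    simp
  | succ M ih =>
    have hq : r ^ (M + 1) < 1 := pow_lt_one₀ hr0 hr (Nat.succ_ne_zero M)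
    have hf0 : ∀ m : ℕ, 0 ≤ (am (M + 1) m : ℝ) * r ^ m := fun m => by positivity
    have hg0 : ∀ m : ℕ, 0 ≤ (am M m : ℝ) * r ^ m := fun m => by positivity
    set P : ℝ := ∑' m : ℕ, (am M m : ℝ) * r ^ m with hP
    refine summable_of_sum_range_le (c := P / (1 - r ^ (M + 1))) hf0 (fun N => ?_)
    rw [le_div_iff₀ (by linarith)]
    have key : ∑ m ∈ Finset.range (N + (M + 1)), (am (M + 1) m : ℝ) * r ^ m ≤
        P + r ^ (M + 1) * ∑ m ∈ Finset.range N, (am (M + 1) m : ℝ) * r ^ m := by
      rw [add_comm N (M + 1), Finset.sum_range_add]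
      have h1 : ∑ m ∈ Finset.range (M + 1), (am (M + 1) m : ℝ) * r ^ m
          = ∑ m ∈ Finset.range (M + 1), (am M m : ℝ) * r ^ m :=
        Finset.sum_congr rfl (fun m hm => by rw [gf_small M m (Finset.mem_range.1 hm)])
      have h2 : ∑ x ∈ Finset.range N, (am (M + 1) (M + 1 + x) : ℝ) * r ^ (M + 1 + x)
          = ∑ x ∈ Finset.range N, (am M (M + 1 + x) : ℝ) * r ^ (M + 1 + x)
            + r ^ (M + 1) * ∑ m ∈ Finset.range N, (am (M + 1) m : ℝ) * r ^ m := by
        rw [Finset.mul_sum, ← Finset.sum_add_distrib]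
        refine Finset.sum_congr rfl (fun x _ => ?_)
        rw [add_comm (M + 1) x, gf_rec]
        push_cast
        ring
      rw [h1, h2, ← add_assoc, ← Finset.sum_range_add]
      have h3 : ∑ m ∈ Finset.range (M + 1 + N), (am M m : ℝ) * r ^ m ≤ P :=
        ih.sum_le_tsum _ (fun m _ => hg0 m)
      linarith
    have h4 : ∑ m ∈ Finset.range N, (am (M + 1) m : ℝ) * r ^ m
        ≤ ∑ m ∈ Finset.range (N + (M + 1)), (am (M + 1) m : ℝ) * r ^ m :=
      Finset.sum_le_sum_of_subset_of_nonneg (Finset.range_mono (by omega)) (fun m _ _ => hf0 m)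
    linarith

theorem gf_hasSum (M : ℕ) (z : ℂ) (hz : ‖z‖ < 1) :
    HasSum (fun m : ℕ => (am M m : ℂ) * z ^ m) (∏ k ∈ Finset.Icc 1 M, (1 - z ^ k)⁻¹) := by
  induction M with
  | zero =>
    have h1 : HasSum (fun m : ℕ => (am 0 m : ℂ) * z ^ m) ((am 0 0 : ℂ) * z ^ 0) :=
      hasSum_single 0 (fun m hm => by rw [gf_am0 m hm]; simp)
    rw [gf_am00] at h1
    simpa using h1
  | succ M ih =>
    have hs : Summable (fun m : ℕ => (am (M + 1) m : ℂ) * z ^ m) := by
      refine Summable.of_norm ?_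
      refine (gf_summable (M + 1) ‖z‖ (norm_nonneg z) hz).congr (fun m => ?_)
      rw [norm_mul, norm_pow, Complex.norm_natCast]
    have hz1 : 1 - z ^ (M + 1) ≠ 0 := by
      intro h
      have h1 : ‖z ^ (M + 1)‖ = 1 := by
        rw [← sub_eq_zero.1 h]; exact norm_one
      rw [norm_pow] at h1
      have h2 : ‖z‖ ^ (M + 1) < 1 := pow_lt_one₀ (norm_nonneg z) hz (Nat.succ_ne_zero M)
      linarith
    set S : ℂ := ∑' m : ℕ, (am (M + 1) m : ℂ) * z ^ m with hS
    have h1 : ∑ m ∈ Finset.range (M + 1), (am (M + 1) m : ℂ) * z ^ m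
        + ∑' m : ℕ, (am (M + 1) (m + (M + 1)) : ℂ) * z ^ (m + (M + 1)) = S :=
      hs.sum_add_tsum_nat_add (M + 1)
    have h2 : ∑ m ∈ Finset.range (M + 1), (am M m : ℂ) * z ^ m
        + ∑' m : ℕ, (am M (m + (M + 1)) : ℂ) * z ^ (m + (M + 1))
        = ∏ k ∈ Finset.Icc 1 M, (1 - z ^ k)⁻¹ := by
      rw [ih.summable.sum_add_tsum_nat_add (M + 1)]
      exact ih.tsum_eq
    have hsh : Summable (fun m : ℕ => (am M (m + (M + 1)) : ℂ) * z ^ (m + (M + 1))) :=
      (summable_nat_add_iff (f := fun m : ℕ => (am M m : ℂ) * z ^ m) (M + 1)).2 ih.summable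
    have hsm : Summable (fun m : ℕ => z ^ (M + 1) * ((am (M + 1) m : ℂ) * z ^ m)) := hs.mul_left _
    have h3 : ∑' m : ℕ, (am (M + 1) (m + (M + 1)) : ℂ) * z ^ (m + (M + 1))
        = ∑' m : ℕ, (am M (m + (M + 1)) : ℂ) * z ^ (m + (M + 1)) + z ^ (M + 1) * S := by
      rw [hS, ← tsum_mul_left, ← hsh.tsum_add hsm]
      refine tsum_congr (fun m => ?_)
      rw [gf_rec]
      push_cast
      ring
    have h4 : ∑ m ∈ Finset.range (M + 1), (am (M + 1) m : ℂ) * z ^ m
        = ∑ m ∈ Finset.range (M + 1), (am M m : ℂ) * z ^ m :=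
      Finset.sum_congr rfl (fun m hm => by rw [gf_small M m (Finset.mem_range.1 hm)])
    have h5 : S = (∏ k ∈ Finset.Icc 1 M, (1 - z ^ k)⁻¹) + z ^ (M + 1) * S := by
      rw [h3, h4] at h1
      rw [← h2, add_assoc]
      exact h1.symm
    rw [Finset.prod_Icc_succ_top (by omega)]
    have h6 : S = (∏ k ∈ Finset.Icc 1 M, (1 - z ^ k)⁻¹) * (1 - z ^ (M + 1))⁻¹ := by
      rw [eq_mul_inv_iff_mul_eq₀ hz1]
      linear_combination h5
    rw [← h6]
    exact hs.hasSum

theorem st_GF : ST_GF := ⟨gf_hasSum, fun M m h => gf_all M m h, gf_mono⟩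

end Pool.Agent.Helper79.ZC
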