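import Pool.Agent.Helper79.ZC.Stmts

set_option autoImplicit false

namespace Pool.Agent.Helper79.ZC

open scoped Classical
open Filter Topology MeasureTheory

/-- orthogonality -/
theorem inv_orth (m m' : ℕ) :
    ∫ θ in (-Real.pi)..Real.pi, Complex.exp ((Complex.I * ((m' : ℂ) - m)) * θ)
      = if m' = m then (2 * Real.pi : ℂ) else 0 := by
  split_ifs with h
  · subst h
    simp only [sub_self, mul_zero, zero_mul, Complex.exp_zero]
    rw [intervalIntegral.integral_const]
    rw [Complex.real_smul]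
    push_cast
    ring
  · have hc : Complex.I * ((m' : ℂ) - m) ≠ 0 := by
      refine mul_ne_zero Complex.I_ne_zero ?_
      rw [sub_ne_zero]
      exact_mod_cast h
    rw [integral_exp_mul_complex hc]
    have h1 : Complex.exp (Complex.I * ((m' : ℂ) - m) * (Real.pi : ℝ))
        = Complex.exp (Complex.I * ((m' : ℂ) - m) * ((-Real.pi : ℝ) : ℂ)) := by
      rw [Complex.exp_eq_exp_iff_exists_int]
      refine ⟨(m' : ℤ) - m, ?_⟩
      push_cast
      ring
    rw [h1, sub_self, zero_div]

theorem st_INV (hGF : ST_GF) : ST_INV := by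
  intro M m α hα
  set r : ℝ := Real.exp (-α) with hr
  have hr0 : 0 ≤ r := (Real.exp_pos _).le
  have hr1 : r < 1 := by
    rw [hr, Real.exp_lt_one_iff]; linarith
  set W : ℂ := ∏ k ∈ Finset.Icc 1 M, ((1 - Real.exp (-α * k) : ℝ) : ℂ) with hW
  have hz : ∀ θ : ℝ, ‖Complex.exp (-(α : ℂ) + Complex.I * θ)‖ = r := by
    intro θ
    rw [Complex.norm_exp, hr]
    congr 1
    simp
  have hphi : ∀ θ : ℝ, phi M α θ
      = W * ∏ k ∈ Finset.Icc 1 M, (1 - (Complex.exp (-(α : ℂ) + Complex.I * θ)) ^ k)⁻¹ := by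
    intro θ
    unfold phi
    rw [hW, ← Finset.prod_mul_distrib]
    refine Finset.prod_congr rfl (fun k _ => ?_)
    rw [← Complex.exp_nat_mul, div_eq_mul_inv]
    have : (k : ℂ) * (-(α : ℂ) + Complex.I * θ) = -(α : ℂ) * k + Complex.I * θ * k := by ring
    rw [this]
  have hsum : ∀ θ : ℝ, HasSum (fun m' : ℕ => ((am M m' : ℂ) * Complex.exp (-α * m') * W) *
      Complex.exp ((Complex.I * ((m' : ℂ) - m)) * θ))
      (phi M α θ * Complex.exp (-Complex.I * θ * m)) := by
    intro θ
    have h1 := hGF.1 M (Complex.exp (-(α : ℂ) + Complex.I * θ)) (by rw [hz]; exact hr1)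
    have h2 := h1.mul_left (W * Complex.exp (-Complex.I * θ * m))
    have h3 : W * Complex.exp (-Complex.I * θ * m) *
        ∏ k ∈ Finset.Icc 1 M, (1 - (Complex.exp (-(α : ℂ) + Complex.I * θ)) ^ k)⁻¹
        = phi M α θ * Complex.exp (-Complex.I * θ * m) := by
      rw [hphi]; ring
    rw [h3] at h2
    refine h2.congr_fun (fun m' => ?_)
    rw [← Complex.exp_nat_mul]
    have h4 : (m' : ℂ) * (-(α : ℂ) + Complex.I * θ) = -α * m' + Complex.I * θ * m' := by ring
    have h5 : (Complex.I * ((m' : ℂ) - m)) * θ = Complex.I * θ * m' + (-Complex.I * θ * m) := by ring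
    rw [h4, h5, Complex.exp_add, Complex.exp_add]
    ring
  have hb : Summable (fun m' : ℕ => (am M m' : ℝ) * r ^ m' * ‖W‖) := by
    have h1 := (hGF.1 M (r : ℂ) (by rw [Complex.norm_real, Real.norm_eq_abs, abs_of_nonneg hr0]; exact hr1)).summable.norm
    refine Summable.mul_right _ (h1.congr (fun m' => ?_))
    rw [norm_mul, norm_pow, Complex.norm_natCast, Complex.norm_real, Real.norm_eq_abs, abs_of_nonneg hr0]
  have hint := intervalIntegral.hasSum_integral_of_dominated_convergence (μ := volume)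
    (a := -Real.pi) (b := Real.pi)
    (F := fun (m' : ℕ) (θ : ℝ) => ((am M m' : ℂ) * Complex.exp (-α * m') * W) *
      Complex.exp ((Complex.I * ((m' : ℂ) - m)) * θ))
    (f := fun θ : ℝ => phi M α θ * Complex.exp (-Complex.I * θ * m))
    (fun (m' : ℕ) (_ : ℝ) => (am M m' : ℝ) * r ^ m' * ‖W‖)
    (fun m' => by
      refine Continuous.aestronglyMeasurable ?_
      fun_prop)
    (fun m' => by
      refine ae_of_all _ (fun θ _ => ?_)
      rw [norm_mul, norm_mul, norm_mul, Complex.norm_natCast]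
      have h1 : ‖Complex.exp (-α * m')‖ = r ^ m' := by
        rw [hr, ← Real.exp_nat_mul, Complex.norm_exp]
        congr 1
        simp
        ring
      have h2 : ‖Complex.exp ((Complex.I * ((m' : ℂ) - m)) * θ)‖ = 1 := by
        rw [Complex.norm_exp]
        simp
      rw [h1, h2, mul_one])
    (ae_of_all _ fun θ _ => hb)
    intervalIntegrable_const
    (ae_of_all _ fun θ _ => hsum θ)
  have hint2 : ∀ m' : ℕ, ∫ θ in (-Real.pi)..Real.pi, ((am M m' : ℂ) * Complex.exp (-α * m') * W) *
      Complex.exp ((Complex.I * ((m' : ℂ) - m)) * θ)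
      = if m' = m then ((am M m' : ℂ) * Complex.exp (-α * m') * W) * (2 * Real.pi) else 0 := by
    intro m'
    rw [intervalIntegral.integral_const_mul, inv_orth]
    split_ifs
    · rfl
    · rw [mul_zero]
  simp only [hint2] at hint
  have h6 : HasSum (fun m' : ℕ => if m' = m then ((am M m' : ℂ) * Complex.exp (-α * m') * W) * (2 * Real.pi) else 0)
      (((am M m : ℂ) * Complex.exp (-α * m) * W) * (2 * Real.pi)) := by
    have h7 := hasSum_ite_eq m (((am M m : ℂ) * Complex.exp (-α * m) * W) * (2 * Real.pi))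
    refine h7.congr_fun (fun m' => ?_)
    split_ifs with h
    · rw [h]
    · rfl
  rw [hint.unique h6]
  have hpi : (Real.pi : ℂ) ≠ 0 := by exact_mod_cast Real.pi_ne_zero
  unfold qq
  rw [hW]
  push_cast
  field_simp

end Pool.Agent.Helper79.ZC
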