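import Pool.Agent.Helper79.ZC.Stmts

set_option autoImplicit false

namespace Pool.Agent.Helper79.ZC

open scoped Classical
open Filter Topology MeasureTheory

theorem kap_exp (B ε : ℝ) (hB : 0 < B) (hε : 0 < ε) : ∃ N0 : ℕ, ∀ N : ℕ, N0 ≤ N → ∀ E : ℝ, 0 ≤ E → E ≤ B →
    |∑ j ∈ Finset.range N, (-1 : ℝ) ^ j * (E ^ j / j.factorial) - Real.exp (-E)| ≤ ε := by
  have h1 := (FloorSemiring.tendsto_pow_div_factorial_atTop B).eventually (eventually_lt_nhds (half_pos hε))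
  obtain ⟨N1, hN1⟩ := eventually_atTop.1 h1
  obtain ⟨N2, hN2⟩ := exists_nat_ge (2 * B)
  refine ⟨max N1 N2, fun N hN E hE0 hEB => ?_⟩
  have hNa : N1 ≤ N := (le_max_left _ _).trans hN
  have hNb : (N2 : ℝ) ≤ N := by exact_mod_cast (le_max_right N1 N2).trans hN
  have hnorm : ‖((-E : ℝ) : ℂ)‖ = E := by
    rw [Complex.norm_real, Real.norm_eq_abs, abs_neg, abs_of_nonneg hE0]
  have h2 : ‖((-E : ℝ) : ℂ)‖ / (N.succ : ℝ) ≤ 1 / 2 := by
    rw [hnorm, div_le_iff₀ (by positivity)]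
    push_cast
    linarith
  have h3 := Complex.exp_bound' h2
  rw [hnorm] at h3
  have h4 : (Complex.exp ((-E : ℝ) : ℂ) - ∑ m ∈ Finset.range N, ((-E : ℝ) : ℂ) ^ m / (m.factorial : ℂ))
      = ((Real.exp (-E) - ∑ j ∈ Finset.range N, (-1 : ℝ) ^ j * (E ^ j / j.factorial) : ℝ) : ℂ) := by
    rw [← Complex.ofReal_exp]
    push_cast
    congr 1
    refine Finset.sum_congr rfl (fun j _ => ?_)
    rw [neg_pow]
    ring
  rw [h4, Complex.norm_real, Real.norm_eq_abs, abs_sub_comm] at h3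
  have h5 : E ^ N / N.factorial ≤ B ^ N / N.factorial := by
    gcongr
  have h6 := hN1 N hNa
  linarith

theorem kap_lower (t j m : ℕ) (ht : 1 ≤ t) (hjm : j ≤ m) (hmt : m ≤ t) :
    (t : ℝ) ^ j / j.factorial * (1 - (m : ℝ) ^ 2 / t) ≤ (t.choose j : ℝ) := by
  have ht0 : (0 : ℝ) < t := by exact_mod_cast ht
  have h1 : (t + 1 - j) ^ j ≤ j.factorial * t.choose j := by
    rw [← Nat.descFactorial_eq_factorial_mul_choose]
    exact Nat.pow_sub_le_descFactorial t j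
  have h2 : (((t + 1 - j : ℕ) : ℝ)) ^ j ≤ j.factorial * (t.choose j : ℝ) := by exact_mod_cast h1
  have hjt : (j : ℝ) ≤ t := by exact_mod_cast hjm.trans hmt
  have h3 : (t : ℝ) * (1 - j / t) ≤ ((t + 1 - j : ℕ) : ℝ) := by
    rw [Nat.cast_sub (by omega)]
    push_cast
    have : (t : ℝ) * (1 - j / t) = t - j := by field_simp
    linarith
  have h4 : (0 : ℝ) ≤ 1 - j / t := by
    rw [sub_nonneg, div_le_one ht0]; exact hjt
  have h5 : (1 : ℝ) + j * (-(j / t)) ≤ (1 + -(j / t)) ^ j :=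
    one_add_mul_le_pow (by linarith) j
  have h6 : (1 : ℝ) - (m : ℝ) ^ 2 / t ≤ (1 - j / t) ^ j := by
    have h7 : (j : ℝ) * (j / t) ≤ (m : ℝ) ^ 2 / t := by
      rw [← mul_div_assoc, ← sq]
      have : (j : ℝ) ≤ m := by exact_mod_cast hjm
      gcongr
    have h8 : (1 : ℝ) + -(j / t) = 1 - j / t := by ring
    rw [h8] at h5
    linarith
  have hf : (0 : ℝ) < j.factorial := by exact_mod_cast j.factorial_pos
  have h9 : (t : ℝ) ^ j * (1 - (m : ℝ) ^ 2 / t) ≤ j.factorial * (t.choose j : ℝ) := by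
    calc (t : ℝ) ^ j * (1 - (m : ℝ) ^ 2 / t) ≤ (t : ℝ) ^ j * (1 - j / t) ^ j := by gcongr
      _ = ((t : ℝ) * (1 - j / t)) ^ j := by rw [mul_pow]
      _ ≤ ((t + 1 - j : ℕ) : ℝ) ^ j := by gcongr
      _ ≤ _ := h2
  calc (t : ℝ) ^ j / j.factorial * (1 - (m : ℝ) ^ 2 / t)
      = ((t : ℝ) ^ j * (1 - (m : ℝ) ^ 2 / t)) / j.factorial := by ring
    _ ≤ (j.factorial * (t.choose j : ℝ)) / j.factorial := by gcongr
    _ = t.choose j := by field_simp

theorem kap_upper (n t j m : ℕ) (ρ : ℝ) (hρ0 : 0 ≤ ρ) (hjm : j ≤ m) (h : ((n / t : ℕ) : ℝ) ≤ ρ * t) :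
    (((t + n / t).choose j : ℕ) : ℝ) ≤ (t : ℝ) ^ j / j.factorial * (1 + ρ) ^ m := by
  have h1 : (((t + n / t).choose j : ℕ) : ℝ) ≤ ((t + n / t : ℕ) : ℝ) ^ j / j.factorial :=
    Nat.choose_le_pow_div j (t + n / t)
  have h2 : ((t + n / t : ℕ) : ℝ) ≤ t * (1 + ρ) := by
    push_cast

    linarith
  calc (((t + n / t).choose j : ℕ) : ℝ) ≤ ((t + n / t : ℕ) : ℝ) ^ j / j.factorial := h1
    _ ≤ (t * (1 + ρ)) ^ j / j.factorial := by gcongr
    _ = (t : ℝ) ^ j / j.factorial * (1 + ρ) ^ j := by rw [mul_pow]; ring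
    _ ≤ (t : ℝ) ^ j / j.factorial * (1 + ρ) ^ m := by
        have : (1 + ρ) ^ j ≤ (1 + ρ) ^ m := pow_le_pow_right₀ (by linarith) hjm
        gcongr

theorem kap_pn_pos (n : ℕ) : 0 < pn n := Fintype.card_pos

theorem kap_rho (M : ℕ) (δ : ℝ) (hδ : 0 < δ) : ∃ ρ : ℝ, 0 < ρ ∧ (1 + ρ) ^ M ≤ 1 + δ := by
  have h1 : Tendsto (fun ρ : ℝ => (1 + ρ) ^ M) (𝓝[>] 0) (𝓝 ((1 + 0) ^ M)) :=
    (((continuous_const.add continuous_id).pow M).tendsto (0 : ℝ)).mono_left nhdsWithin_le_nhds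
  have h2 : ((1 : ℝ) + 0) ^ M < 1 + δ := by simpa using hδ
  obtain ⟨ρ, h3, h4⟩ := ((h1.eventually (eventually_lt_nhds h2)).and self_mem_nhdsWithin).exists
  exact ⟨ρ, h4, h3.le⟩

theorem kap_real (T e p c1 c2 A δ X : ℝ) (hT0 : 0 < T) (he0 : 0 < e) (hδ0 : 0 < δ) (hδ1 : δ ≤ 1 / 2)
    (hp0 : 0 ≤ p) (hp1 : (1 - δ) * e ≤ p) (hp2 : p ≤ (1 + δ) * e) (h1 : T * (1 - δ) ≤ c1)
    (h2 : c2 ≤ T * (1 + δ)) (hA1 : c1 * p ≤ A) (hA2 : A ≤ c2 * p) (hX : T * e ≤ X) :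
    |A - T * e| ≤ 3 * δ * X := by
  have hTe0 : 0 < T * e := mul_pos hT0 he0
  have h3 : 0 ≤ T * (1 - δ) := mul_nonneg hT0.le (by linarith)
  have h4 : 0 ≤ (1 - δ) * e := mul_nonneg (by linarith) he0.le
  have hL : T * (1 - δ) * ((1 - δ) * e) ≤ A := (mul_le_mul h1 hp1 h4 (h3.trans h1)).trans hA1
  have h5 : 0 ≤ T * (1 + δ) := mul_nonneg hT0.le (by linarith)
  have hU : A ≤ T * (1 + δ) * ((1 + δ) * e) := hA2.trans (mul_le_mul h2 hp2 hp0 h5)
  have hX0 : 0 < X := hTe0.trans_le hX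
  have h6 : δ * (T * e) ≤ δ * X := mul_le_mul_of_nonneg_left hX hδ0.le
  have h7 : δ * δ * (T * e) ≤ 1 / 2 * (δ * (T * e)) := by
    have : δ * (δ * (T * e)) ≤ 1 / 2 * (δ * (T * e)) :=
      mul_le_mul_of_nonneg_right hδ1 (mul_pos hδ0 hTe0).le
    linarith
  have h8 : 0 ≤ δ * δ * (T * e) := by positivity
  have h9 : 0 < δ * (T * e) := mul_pos hδ0 hTe0
  have e1 : T * (1 - δ) * ((1 - δ) * e) = T * e - 2 * (δ * (T * e)) + δ * δ * (T * e) := by ring
  have e2 : T * (1 + δ) * ((1 + δ) * e) = T * e + 2 * (δ * (T * e)) + δ * δ * (T * e) := by ring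
  rw [e1] at hL
  rw [e2] at hU
  have e3 : 3 * δ * X = 3 * (δ * X) := by ring
  rw [e3, abs_le]
  constructor
  · linarith
  · linarith

theorem st_KAP (hCNT : ST_CNT) (hRAT : ST_RAT) (hWIN : ST_WIN) : ST_KAP := by
  intro B ε hB hε
  have hB0 : 0 < B := by linarith
  obtain ⟨N0, hN0⟩ := kap_exp B (ε / 2) hB0 (half_pos hε)
  set J : ℕ := N0 + 1 with hJ
  have heB : 0 < Real.exp B := Real.exp_pos B
  set δ : ℝ := min (1 / 2) (ε / (6 * (2 * J + 1) * Real.exp B)) with hδ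
  have hδ0 : 0 < δ := by
    rw [hδ]; refine lt_min (by norm_num) (by positivity)
  have hδ1 : δ ≤ 1 / 2 := min_le_left _ _
  have hδ2 : (2 * J + 1 : ℝ) * (3 * δ * Real.exp B) ≤ ε / 2 := by
    have h1 : δ ≤ ε / (6 * (2 * J + 1) * Real.exp B) := min_le_right _ _
    rw [le_div_iff₀ (by positivity)] at h1
    nlinarith
  obtain ⟨ρ, hρ0, hρ⟩ := kap_rho (2 * J) δ hδ0
  have hKpos : (0 : ℝ) < 2 * J + 1 := by positivity
  have hlog : Tendsto (fun n : ℕ => Real.log (n : ℝ)) atTop atTop :=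
    Real.tendsto_log_atTop.comp tendsto_natCast_atTop_atTop
  have hsq : Tendsto (fun n : ℕ => Real.sqrt (n : ℝ)) atTop atTop :=
    Real.tendsto_sqrt_atTop.comp tendsto_natCast_atTop_atTop
  filter_upwards [hWIN B (1 / 4) hB (by norm_num), hRAT (2 * J + 1) δ hKpos hδ0,
    hlog.eventually_ge_atTop (4 * Real.pi / Real.sqrt ρ + 1),
    hsq.eventually_ge_atTop (((2 * J : ℕ) : ℝ) ^ 2 / δ + (2 * J : ℕ) + 1),
    eventually_ge_atTop 2] with n hwin hrat hlogn hsqn hn2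
  intro t ht1 ht2 ht3
  obtain ⟨hw1, hw2, hw3, -, -, -⟩ := hwin t ht1 ht2 ht3
  have hpn : (0 : ℝ) < pn n := by exact_mod_cast kap_pn_pos n
  have hn0 : (0 : ℝ) < n := by positivity
  have hsn0 : 0 < Real.sqrt n := Real.sqrt_pos.2 hn0
  have hsρ : 0 < Real.sqrt ρ := Real.sqrt_pos.2 hρ0
  have hlog0 : 0 < Real.log n := by
    have : 0 < 4 * Real.pi / Real.sqrt ρ := by positivity
    linarith
  have htsn : Real.sqrt n ≤ t := ht1
  have hs1 : ((2 * J : ℕ) : ℝ) + 1 ≤ t := by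
    have : 0 ≤ ((2 * J : ℕ) : ℝ) ^ 2 / δ := by positivity
    linarith
  have hmt : 2 * J + 1 ≤ t := by exact_mod_cast hs1
  have ht1' : 1 ≤ t := by omega
  have ht0 : (0 : ℝ) < t := by exact_mod_cast ht1'
  -- lower correction
  have hlow : ((2 * J : ℕ) : ℝ) ^ 2 / t ≤ δ := by
    rw [div_le_iff₀ ht0]
    have h1 : ((2 * J : ℕ) : ℝ) ^ 2 / δ ≤ t := by
      have h2 : (0 : ℝ) ≤ ((2 * J : ℕ) : ℝ) := by positivity
      linarith
    rw [div_le_iff₀ hδ0] at h1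
    linarith
  -- upper correction
  have hal : al n = Real.pi / Real.sqrt (6 * n) := rfl
  have hup : ((n / t : ℕ) : ℝ) ≤ ρ * t := by
    have h1 : ((n / t : ℕ) : ℝ) ≤ (n : ℝ) / t := Nat.cast_div_le
    refine h1.trans ?_
    rw [div_le_iff₀ ht0]
    -- `al n * t ≥ log n / 4`, so `t ≥ √n / √ρ`
    have h2 : 1 / 4 * Real.log n ≤ al n * t := by
      have h3 : (1 / 2 - 1 / 4 : ℝ) * Real.log n ≤ al n * t := hw2
      have h4 : (1 / 2 - 1 / 4 : ℝ) = 1 / 4 := by norm_num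
      rw [h4] at h3
      exact h3
    have h5 : al n ≤ Real.pi / Real.sqrt n := by
      rw [hal]
      have h6 : Real.sqrt n ≤ Real.sqrt (6 * n) := Real.sqrt_le_sqrt (by linarith)
      have := Real.pi_pos
      gcongr
    have h7 : Real.pi / Real.sqrt ρ ≤ 1 / 4 * Real.log n := by
      have h8 : 4 * Real.pi / Real.sqrt ρ ≤ Real.log n := by linarith
      have h9 : 4 * Real.pi / Real.sqrt ρ = 4 * (Real.pi / Real.sqrt ρ) := by ring
      linarith
    have h10 : Real.pi / Real.sqrt ρ ≤ Real.pi / Real.sqrt n * t := by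
      calc Real.pi / Real.sqrt ρ ≤ 1 / 4 * Real.log n := h7
        _ ≤ al n * t := h2
        _ ≤ Real.pi / Real.sqrt n * t := by gcongr
    have h11 : Real.sqrt n ≤ Real.sqrt ρ * t := by
      have hpi := Real.pi_pos
      rw [div_mul_eq_mul_div, div_le_div_iff₀ hsρ hsn0] at h10
      have h12 : Real.pi * Real.sqrt n ≤ Real.pi * (Real.sqrt ρ * t) := by linarith
      exact le_of_mul_le_mul_left h12 hpi
    calc (n : ℝ) = Real.sqrt n * Real.sqrt n := (Real.mul_self_sqrt hn0.le).symm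
      _ ≤ (Real.sqrt ρ * t) * (Real.sqrt ρ * t) := by gcongr
      _ = (Real.sqrt ρ * Real.sqrt ρ) * (t * t) := by ring
      _ = ρ * t * t := by rw [Real.mul_self_sqrt hρ0.le]; ring
  obtain ⟨a, ha, hbon⟩ := hCNT.2.2 n t ht1'
  obtain ⟨hb1, hb2⟩ := hbon J
  have hE0 : 0 ≤ EE n t := by unfold EE; positivity
  -- each term
  have hterm : ∀ j : ℕ, j ≤ 2 * J → |(a j : ℝ) / pn n - (EE n t) ^ j / j.factorial| ≤ 3 * δ * Real.exp B := by
    intro j hj
    have hjr : (j : ℝ) ≤ 2 * J := by exact_mod_cast hj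
    have hs : ((j * t : ℕ) : ℝ) ≤ (2 * J + 1) * Real.sqrt n * Real.log n := by
      push_cast
      have h1 : (0 : ℝ) ≤ j := by positivity
      have h2 : 0 ≤ Real.sqrt n * Real.log n := by positivity
      calc (j : ℝ) * t ≤ j * (Real.sqrt n * Real.log n) := by gcongr
        _ ≤ (2 * J + 1) * (Real.sqrt n * Real.log n) := by gcongr; linarith
        _ = _ := by ring
    obtain ⟨hsn, -, hr⟩ := hrat (j * t) hs
    obtain ⟨ha1, ha2⟩ := ha j hsn
    set p : ℝ := (pn (n - j * t) : ℝ) / pn n with hp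
    set e : ℝ := Real.exp (-(al n) * ((j * t : ℕ) : ℝ)) with he
    have he0 : 0 < e := Real.exp_pos _
    have hr' := abs_le.1 hr
    have hp1 : (1 - δ) * e ≤ p := by linarith [hr'.1]
    have hp2 : p ≤ (1 + δ) * e := by linarith [hr'.2]
    have hEj : (EE n t) ^ j / j.factorial = (t : ℝ) ^ j / j.factorial * e := by
      unfold EE
      rw [mul_pow, ← Real.exp_nat_mul, he]
      have : (j : ℝ) * (-(al n) * t) = -(al n) * ((j * t : ℕ) : ℝ) := by push_cast; ring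
      rw [this]
      ring
    have hA1 : (t.choose j : ℝ) * p ≤ (a j : ℝ) / pn n := by
      rw [hp, ← mul_div_assoc]
      have : ((t.choose j : ℝ)) * (pn (n - j * t) : ℝ) ≤ (a j : ℝ) := by exact_mod_cast ha1
      gcongr
    have hA2 : (a j : ℝ) / pn n ≤ (((t + n / t).choose j : ℕ) : ℝ) * p := by
      rw [hp, ← mul_div_assoc]
      have : (a j : ℝ) ≤ (((t + n / t).choose j : ℕ) : ℝ) * (pn (n - j * t) : ℝ) := by exact_mod_cast ha2
      gcongr
    have hc1 := kap_lower t j (2 * J) ht1' hj (by omega)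
    have hc2 := kap_upper n t j (2 * J) ρ hρ0.le hj hup
    set T : ℝ := (t : ℝ) ^ j / j.factorial with hT
    have hT0 : 0 < T := by rw [hT]; positivity
    have hp0 : 0 ≤ p := by rw [hp]; positivity
    have hTe : T * e ≤ Real.exp B := by
      rw [← hEj]
      have h1 : (EE n t) ^ j / j.factorial ≤ Real.exp (EE n t) := Real.pow_div_factorial_le_exp _ hE0 j
      exact h1.trans (Real.exp_le_exp.2 ht3)
    have hg1 : T * (1 - δ) ≤ (t.choose j : ℝ) := by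
      refine le_trans ?_ hc1
      gcongr
    have hg2 : (((t + n / t).choose j : ℕ) : ℝ) ≤ T * (1 + δ) := by
      refine hc2.trans ?_
      gcongr
    rw [hEj]
    exact kap_real T e p _ _ _ δ _ hT0 he0 hδ0 hδ1 hp0 hp1 hp2 hg1 hg2 hA1 hA2 hTe
  -- the two sums
  have hsum : ∀ N : ℕ, N0 ≤ N → N ≤ 2 * J + 1 →
      |∑ j ∈ Finset.range N, (-1 : ℝ) ^ j * ((a j : ℝ) / pn n) - Real.exp (-(EE n t))| ≤ ε := by
    intro N hN hN'
    have h1 := hN0 N hN (EE n t) hE0 ht3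
    have h2 : |∑ j ∈ Finset.range N, (-1 : ℝ) ^ j * ((a j : ℝ) / pn n)
        - ∑ j ∈ Finset.range N, (-1 : ℝ) ^ j * ((EE n t) ^ j / j.factorial)| ≤ ε / 2 := by
      rw [← Finset.sum_sub_distrib]
      refine (Finset.abs_sum_le_sum_abs _ _).trans ?_
      have h3 : ∀ j ∈ Finset.range N, |(-1 : ℝ) ^ j * ((a j : ℝ) / pn n)
          - (-1 : ℝ) ^ j * ((EE n t) ^ j / j.factorial)| ≤ 3 * δ * Real.exp B := by
        intro j hj
        rw [← mul_sub, abs_mul, abs_pow, abs_neg, abs_one, one_pow, one_mul]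
        exact hterm j (by have := Finset.mem_range.1 hj; omega)
      refine (Finset.sum_le_sum h3).trans ?_
      rw [Finset.sum_const, Finset.card_range, nsmul_eq_mul]
      refine le_trans ?_ hδ2
      have h4 : (N : ℝ) ≤ 2 * J + 1 := by exact_mod_cast hN'
      have h5 : 0 ≤ 3 * δ * Real.exp B := by positivity
      gcongr
    have h6 := abs_le.1 h1
    have h7 := abs_le.1 h2
    rw [abs_le]
    constructor <;> linarith [h6.1, h6.2, h7.1, h7.2]
  have hc1 : ∑ j ∈ Finset.range (2 * J), (-1 : ℝ) ^ j * ((a j : ℝ) / pn n) ≤ (cn t n : ℝ) / pn n := by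
    rw [le_div_iff₀ hpn, Finset.sum_mul]
    have h1 : ∑ j ∈ Finset.range (2 * J), (-1 : ℝ) ^ j * (a j : ℝ) ≤ (cn t n : ℝ) := by exact_mod_cast hb1
    refine le_trans (le_of_eq (Finset.sum_congr rfl (fun j _ => ?_))) h1
    field_simp
  have hc2 : (cn t n : ℝ) / pn n ≤ ∑ j ∈ Finset.range (2 * J + 1), (-1 : ℝ) ^ j * ((a j : ℝ) / pn n) := by
    rw [div_le_iff₀ hpn, Finset.sum_mul]
    have h1 : (cn t n : ℝ) ≤ ∑ j ∈ Finset.range (2 * J + 1), (-1 : ℝ) ^ j * (a j : ℝ) := by exact_mod_cast hb2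
    refine h1.trans (le_of_eq (Finset.sum_congr rfl (fun j _ => ?_)))
    field_simp
  have h1 := abs_le.1 (hsum (2 * J) (by omega) (by omega))
  have h2 := abs_le.1 (hsum (2 * J + 1) (by omega) le_rfl)
  rw [abs_le]
  constructor <;> linarith [h1.1, h1.2, h2.1, h2.2]

end Pool.Agent.Helper79.ZC
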