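import Pool.Agent.Helper79.ZC.Stmts

set_option autoImplicit false

namespace Pool.Agent.Helper79.ZC

open scoped Classical
open Filter Topology MeasureTheory

theorem win_logx (x : ℝ) (hx : 0 < x) : Real.log x ≤ x / 2 := by
  have h1 : Real.log (x / 2) ≤ x / 2 - 1 := Real.log_le_sub_one_of_pos (by positivity)
  rw [Real.log_div hx.ne' (by norm_num)] at h1
  have h2 : Real.log 2 ≤ 1 := by
    have := Real.log_two_lt_d9
    linarith
  linarith

/-- the window, first part: real variables. `s = √n`, `L = log n`, `a = al n`. -/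
theorem win_range (B δ L s a t E : ℝ) (hB : 1 < B) (hs : 1 ≤ s) (hL : L = 2 * Real.log s)
    (has : 5 / 4 ≤ a * s) (hE : E = t * Real.exp (-a * t)) (hts : s ≤ t)
    (hE1 : 1 / B ≤ E) (hE2 : E ≤ B) (hδ0 : 0 < δ) (hδ1 : δ ≤ 1 / 16)
    (hBL : Real.log B ≤ δ / 2 * L) (hLL : Real.log L ≤ δ / 2 * L) (hL1 : 1 ≤ L) :
    t ≤ s * L ∧ (1 / 2 - δ) * L ≤ a * t ∧ a * t ≤ (1 / 2 + δ) * L := by
  have hs0 : 0 < s := by linarith
  have ht0 : 0 < t := by linarith
  have hB0 : 0 < B := by linarith
  have hE0 : 0 < E := lt_of_lt_of_le (by positivity) hE1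
  have hlogE : Real.log E = Real.log t - a * t := by
    rw [hE, Real.log_mul ht0.ne' (Real.exp_pos _).ne', Real.log_exp]
    ring
  have h1 : -Real.log B ≤ Real.log E := by
    rw [← Real.log_inv, ← one_div]
    exact Real.log_le_log (by positivity) hE1
  have h2 : Real.log E ≤ Real.log B := Real.log_le_log hE0 hE2
  have h3 : Real.log s ≤ Real.log t := Real.log_le_log hs0 hts
  have hx : Real.log t = Real.log s + Real.log (t / s) := by
    rw [Real.log_div ht0.ne' hs0.ne']; ring
  have hxs : Real.log (t / s) ≤ t / s / 2 := win_logx _ (by positivity)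
  have hat : 5 / 4 * (t / s) ≤ a * t := by
    have h4 : a * t = (a * s) * (t / s) := by field_simp
    rw [h4]
    have : 0 ≤ t / s := by positivity
    exact mul_le_mul_of_nonneg_right has this
  have hL0 : 0 < L := by linarith
  have hx1 : t / s ≤ L := by
    have h5 : 3 / 4 * (t / s) ≤ L / 2 + Real.log B := by linarith
    have h6 : δ / 2 * L ≤ 1 / 32 * L := by
      have : δ / 2 ≤ 1 / 32 := by linarith
      exact mul_le_mul_of_nonneg_right this hL0.le
    linarith
  have ht : t ≤ s * L := by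
    rw [div_le_iff₀ hs0] at hx1
    linarith
  refine ⟨ht, ?_, ?_⟩
  · have h7 : (1 / 2 - δ) * L = L / 2 - δ * L := by ring
    have h8 : δ / 2 * L = δ * L / 2 := by ring
    have h9 : 0 < δ * L := by positivity
    rw [h7]
    rw [h8] at hBL
    linarith
  · have h10 : Real.log t ≤ Real.log s + Real.log L := by
      rw [← Real.log_mul hs0.ne' hL0.ne']
      exact Real.log_le_log ht0 ht
    have h7 : (1 / 2 + δ) * L = L / 2 + (δ / 2 * L + δ / 2 * L) := by ring
    rw [h7]
    linarith

/-- the difference -/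
theorem win_diff (a t E E' : ℝ) (ht : 0 < t) (hE : E = t * Real.exp (-a * t))
    (hE' : E' = (t + 1) * Real.exp (-a * (t + 1))) :
    E - E' = E / t * (t * (1 - Real.exp (-a)) - Real.exp (-a)) := by
  have h1 : Real.exp (-a * (t + 1)) = Real.exp (-a * t) * Real.exp (-a) := by
    rw [← Real.exp_add]; congr 1; ring
  rw [hE, hE', h1]
  field_simp
  ring

theorem win_F (δ L a t : ℝ) (ht : 0 < t) (ha : 0 < a) (haδ : a ≤ δ) (hδ0 : 0 < δ) (hδ1 : δ ≤ 1 / 16)
    (hL : 1 ≤ δ * L) (hL0 : 0 < L) (h1 : (1 / 2 - δ) * L ≤ a * t) (h2 : a * t ≤ (1 / 2 + δ) * L) :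
    |L / 2 - (t * (1 - Real.exp (-a)) - Real.exp (-a))| ≤ 3 * δ * L := by
  have e1 : 1 - Real.exp (-a) ≤ a := by
    have := Real.add_one_le_exp (-a)
    linarith
  have e2 : a - a ^ 2 ≤ 1 - Real.exp (-a) := by
    have h3 : |-a| ≤ 1 := by
      rw [abs_neg, abs_of_pos ha]; linarith
    have h4 := Real.abs_exp_sub_one_sub_id_le h3
    have h5 := (abs_le.1 h4).2
    have h6 : (-a) ^ 2 = a ^ 2 := by ring
    rw [h6] at h5
    linarith
  have e3 : 0 < Real.exp (-a) := Real.exp_pos _
  have e4 : Real.exp (-a) ≤ 1 := by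
    rw [Real.exp_le_one_iff]; linarith
  have e5 : t * (1 - Real.exp (-a)) ≤ t * a := mul_le_mul_of_nonneg_left e1 ht.le
  have e6 : t * (a - a ^ 2) ≤ t * (1 - Real.exp (-a)) := mul_le_mul_of_nonneg_left e2 ht.le
  have e7 : a * (a * t) ≤ δ * L := by
    have h7 : (1 / 2 + δ) * L ≤ 1 * L := mul_le_mul_of_nonneg_right (by linarith) hL0.le
    have h8 : a * (a * t) ≤ δ * (1 * L) := mul_le_mul haδ (h2.trans h7) (by positivity) hδ0.le
    linarith
  have e8 : t * (a - a ^ 2) = a * t - a * (a * t) := by ring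
  have e9 : (1 / 2 - δ) * L = L / 2 - δ * L := by ring
  have e10 : (1 / 2 + δ) * L = L / 2 + δ * L := by ring
  have e11 : 3 * δ * L = 3 * (δ * L) := by ring
  rw [e9] at h1
  rw [e10] at h2
  rw [e8] at e6
  rw [e11, abs_le]
  constructor <;> nlinarith

theorem st_WIN : ST_WIN := by
  intro B ε hB hε
  set δ : ℝ := min ε (min (ε / 16) (1 / 16)) with hδ
  have hδ0 : 0 < δ := by rw [hδ]; refine lt_min hε (lt_min (by positivity) (by norm_num))
  have hδε : δ ≤ ε := min_le_left _ _
  have hδε2 : δ ≤ ε / 16 := (min_le_right _ _).trans (min_le_left _ _)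
  have hδ1 : δ ≤ 1 / 16 := (min_le_right _ _).trans (min_le_right _ _)
  have hlog : Tendsto (fun n : ℕ => Real.log (n : ℝ)) atTop atTop :=
    Real.tendsto_log_atTop.comp tendsto_natCast_atTop_atTop
  have hsq : Tendsto (fun n : ℕ => Real.sqrt (n : ℝ)) atTop atTop :=
    Real.tendsto_sqrt_atTop.comp tendsto_natCast_atTop_atTop
  have hll : ∀ᶠ x : ℝ in atTop, Real.log x ≤ δ / 2 * x := by
    filter_upwards [Real.isLittleO_log_id_atTop.bound (half_pos hδ0), eventually_ge_atTop (1 : ℝ)] with x h1 h2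
    rw [Real.norm_eq_abs, id, Real.norm_eq_abs, abs_of_nonneg (by linarith : (0 : ℝ) ≤ x)] at h1
    exact (le_abs_self _).trans h1
  have hls : ∀ᶠ x : ℝ in atTop, Real.log x ≤ ε / (4 * B) * x := by
    have h0 : (0 : ℝ) < ε / (4 * B) := by positivity
    filter_upwards [Real.isLittleO_log_id_atTop.bound h0, eventually_ge_atTop (1 : ℝ)] with x h1 h2
    rw [Real.norm_eq_abs, id, Real.norm_eq_abs, abs_of_nonneg (by linarith : (0 : ℝ) ≤ x)] at h1
    exact (le_abs_self _).trans h1
  filter_upwards [hlog.eventually hll, hsq.eventually hls,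
    hlog.eventually_ge_atTop (max 1 (max (1 / δ) (2 * Real.log B / δ))),
    hsq.eventually_ge_atTop (max 1 (2 / δ)), eventually_ge_atTop 2] with n hlln hlsn hLn hsn hn2
  intro t ht1 ht2 ht3
  have hn0 : (0 : ℝ) < n := by positivity
  set s : ℝ := Real.sqrt n with hs
  set L : ℝ := Real.log n with hL
  have hs1 : 1 ≤ s := (le_max_left _ _).trans hsn
  have hs2 : 2 / δ ≤ s := (le_max_right _ _).trans hsn
  have hs0 : 0 < s := by linarith
  have hL1 : 1 ≤ L := (le_max_left _ _).trans hLn
  have hL2 : 1 / δ ≤ L := ((le_max_left _ _).trans (le_max_right _ _)).trans hLn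
  have hL3 : 2 * Real.log B / δ ≤ L := ((le_max_right _ _).trans (le_max_right _ _)).trans hLn
  have hL0 : 0 < L := by linarith
  have hLs : L = 2 * Real.log s := by
    rw [hs, Real.log_sqrt hn0.le]; ring
  have hpi := Real.pi_pos
  have hals : al n * s = Real.pi / Real.sqrt 6 := by
    unfold al
    rw [Real.sqrt_mul (by norm_num : (0 : ℝ) ≤ 6), ← hs]
    have h6 : (0 : ℝ) < Real.sqrt 6 := by positivity
    field_simp
  have h6a : Real.sqrt 6 ≤ 5 / 2 := by
    rw [Real.sqrt_le_left (by norm_num)]; norm_num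
  have h6b : (2 : ℝ) ≤ Real.sqrt 6 := by
    rw [Real.le_sqrt' (by norm_num)]; norm_num
  have h60 : (0 : ℝ) < Real.sqrt 6 := by linarith
  have has : 5 / 4 ≤ al n * s := by
    rw [hals, le_div_iff₀ h60]
    have := Real.pi_gt_d2
    linarith
  have ha2 : al n * s ≤ 2 := by
    rw [hals, div_le_iff₀ h60]
    have := Real.pi_lt_d2
    linarith
  have ha0 : 0 < al n := by
    have : 0 < al n * s := by linarith
    exact (mul_pos_iff_of_pos_right hs0).1 this
  have haδ : al n ≤ δ := by
    have h1 : 2 ≤ δ * s := by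
      rw [div_le_iff₀ hδ0] at hs2; linarith
    have h2 : al n * s ≤ δ * s := ha2.trans h1
    exact le_of_mul_le_mul_right h2 hs0
  have hBL : Real.log B ≤ δ / 2 * L := by
    rw [div_le_iff₀ hδ0] at hL3
    linarith
  have hδL : 1 ≤ δ * L := by
    rw [div_le_iff₀ hδ0] at hL2
    linarith
  have ht0 : (0 : ℝ) < t := by linarith
  have hE : EE n t = (t : ℝ) * Real.exp (-(al n) * t) := rfl
  have hE' : EE n (t + 1) = ((t : ℝ) + 1) * Real.exp (-(al n) * ((t : ℝ) + 1)) := by
    unfold EE; push_cast; ring_nf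
  obtain ⟨hw1, hw2, hw3⟩ := win_range B δ L s (al n) t (EE n t) hB hs1 hLs has hE ht1 ht2 ht3
    hδ0 hδ1 hBL hlln hL1
  have hF := win_F δ L (al n) t ht0 ha0 haδ hδ0 hδ1 hδL hL0 hw2 hw3
  have hD := win_diff (al n) t (EE n t) (EE n (t + 1)) ht0 hE hE'
  set F : ℝ := (t : ℝ) * (1 - Real.exp (-(al n))) - Real.exp (-(al n)) with hFdef
  have hF' := abs_le.1 hF
  have hEpos : 0 < EE n t := lt_of_lt_of_le (by positivity) ht2
  have hδL2 : δ * L ≤ 1 / 16 * L := mul_le_mul_of_nonneg_right hδ1 hL0.le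
  have hFlow : L / 4 ≤ F := by
    have : 3 * δ * L = 3 * (δ * L) := by ring
    rw [this] at hF'
    linarith [hF'.1, hF'.2]
  have hFup : F ≤ L := by
    have : 3 * δ * L = 3 * (δ * L) := by ring
    rw [this] at hF'
    linarith [hF'.1, hF'.2]
  have hF0 : 0 < F := by linarith
  have hEt : 0 < EE n t / t := by positivity
  rw [hD]
  refine ⟨hw1, ?_, ?_, by positivity, ?_, ?_⟩
  · refine le_trans ?_ hw2
    have : δ * L ≤ ε * L := mul_le_mul_of_nonneg_right hδε hL0.le
    linarith
  · refine hw3.trans ?_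
    have : δ * L ≤ ε * L := mul_le_mul_of_nonneg_right hδε hL0.le
    linarith
  · have h1 : EE n t / t ≤ B / s := by
      rw [div_le_div_iff₀ ht0 hs0]
      exact mul_le_mul ht3 ht1 hs0.le (by linarith)
    calc EE n t / t * F ≤ B / s * L := mul_le_mul h1 hFup hF0.le (by positivity)
      _ ≤ ε := by
          rw [div_mul_eq_mul_div, div_le_iff₀ hs0]
          rw [hLs]
          have h2 : Real.log s ≤ ε / (4 * B) * s := hlsn
          have h3 : B * (2 * Real.log s) ≤ B * (2 * (ε / (4 * B) * s)) := by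
            have : (0 : ℝ) < B := by linarith
            gcongr
          have h4 : B * (2 * (ε / (4 * B) * s)) = ε * s / 2 := by
            have : (B : ℝ) ≠ 0 := by linarith
            field_simp
            ring
          have h5 : 0 < ε * s := by positivity
          linarith
  · rw [← mul_sub, abs_mul, abs_of_pos hEt]
    have h1 : ε * (EE n t / t * F) = EE n t / t * (ε * F) := by ring
    rw [h1]
    refine mul_le_mul_of_nonneg_left ?_ hEt.le
    refine hF.trans ?_
    have h2 : 3 * δ * L ≤ 3 * (ε / 16) * L := by gcongr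
    have h3 : ε * (L / 4) ≤ ε * F := mul_le_mul_of_nonneg_left hFlow hε.le
    have h4 : 0 < ε * L := by positivity
    have h5 : 3 * (ε / 16) * L = 3 / 16 * (ε * L) := by ring
    have h6 : ε * (L / 4) = 1 / 4 * (ε * L) := by ring
    rw [h5] at h2
    rw [h6] at h3
    linarith

end Pool.Agent.Helper79.ZC
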